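import Pool.Agent.Helper82.CN.St

/-!
# Project CN, module LIP: the chromatic numbers of `G_n` and `G_{n+1}`
-/

set_option autoImplicit false

namespace Pool.Agent.Helper8.CN

open Finset Pool.Agent.Helper82.CN

/-- the restriction of the bits to the first `n` vertices -/
private def rs_LIP {n : ℕ} (ω : Sym2 (Fin (n + 1)) → Bool) : Sym2 (Fin n) → Bool :=
  fun j => ω (Sym2.map Fin.castSucc j)

private lemma adj_LIP {n : ℕ} (ω : Sym2 (Fin (n + 1)) → Bool) (i j : Fin n) :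
    (gr (rs_LIP ω)).Adj i j ↔ (gr ω).Adj i.castSucc j.castSucc := by
  show (i ≠ j ∧ ω (Sym2.map Fin.castSucc s(i, j)) = true) ↔
    (i.castSucc ≠ j.castSucc ∧ ω s(i.castSucc, j.castSucc) = true)
  rw [Sym2.map_mk]
  have : i ≠ j ↔ i.castSucc ≠ j.castSucc := by
    rw [Ne, Ne, Fin.castSucc_inj]
  rw [this]

private lemma ch_le_LIP {V : Type} {G : SimpleGraph V} {c : ℕ} (h : G.Colorable c) :
    ch G ≤ c := by
  unfold ch
  exact_mod_cast ENat.toNat_le_of_le_coe h.chromaticNumber_le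

private lemma low_LIP {n : ℕ} (ω : Sym2 (Fin (n + 1)) → Bool) :
    ch (gr (rs_LIP ω)) ≤ ch (gr ω) := by
  have h := SimpleGraph.colorable_chromaticNumber_of_fintype (gr ω)
  obtain ⟨C⟩ := h
  refine ch_le_LIP (G := gr (rs_LIP ω)) ⟨SimpleGraph.Coloring.mk (fun i => C i.castSucc) ?_⟩
  intro i j hij
  exact C.valid ((adj_LIP ω i j).1 hij)

private lemma upp_LIP {n : ℕ} (ω : Sym2 (Fin (n + 1)) → Bool) :
    ch (gr ω) ≤ ch (gr (rs_LIP ω)) + 1 := by
  have h := SimpleGraph.colorable_chromaticNumber_of_fintype (gr (rs_LIP ω))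
  obtain ⟨C⟩ := h
  have hc : (gr ω).Colorable ((gr (rs_LIP ω)).chromaticNumber.toNat + 1) := by
    refine ⟨SimpleGraph.Coloring.mk (Fin.lastCases (Fin.last _) (fun i => (C i).castSucc)) ?_⟩
    intro v w hvw
    induction v using Fin.lastCases with
    | last =>
      induction w using Fin.lastCases with
      | last => exact absurd rfl hvw.ne
      | cast j =>
        rw [Fin.lastCases_last, Fin.lastCases_castSucc]
        exact (Fin.castSucc_lt_last _).ne'
    | cast i =>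
      induction w using Fin.lastCases with
      | last =>
        rw [Fin.lastCases_last, Fin.lastCases_castSucc]
        exact (Fin.castSucc_lt_last _).ne
      | cast j =>
        rw [Fin.lastCases_castSucc, Fin.lastCases_castSucc, Ne, Fin.castSucc_inj]
        exact C.valid ((adj_LIP ω i j).2 hvw)
  have h2 := ch_le_LIP hc
  rw [Nat.cast_add, Nat.cast_one] at h2
  exact h2

/-- the inequality of Minkowski in the form needed -/
private lemma mink_LIP {p : ℝ} (h0 : 0 ≤ p) (h1 : p ≤ 1) {ι : Type} [Fintype ι] [DecidableEq ι]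
    (X Y : (ι → Bool) → ℝ) (hXY : EE p (fun ω => (X ω - Y ω) ^ 2) ≤ 1) :
    |√(EE p (fun ω => X ω ^ 2)) - √(EE p (fun ω => Y ω ^ 2))| ≤ 1 := by
  have hA : 0 ≤ EE p (fun ω => X ω ^ 2) := EE_nonneg h0 h1 fun ω => sq_nonneg _
  have hB : 0 ≤ EE p (fun ω => Y ω ^ 2) := EE_nonneg h0 h1 fun ω => sq_nonneg _
  have hcs := EE_cs h0 h1 X Y
  have hc : EE p (fun ω => X ω * Y ω) ≤
      √(EE p (fun ω => X ω ^ 2)) * √(EE p (fun ω => Y ω ^ 2)) := by
    rw [← Real.sqrt_mul hA]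
    exact Real.le_sqrt_of_sq_le hcs
  have hexp : EE p (fun ω => (X ω - Y ω) ^ 2) = EE p (fun ω => X ω ^ 2) +
      EE p (fun ω => Y ω ^ 2) - 2 * EE p (fun ω => X ω * Y ω) := by
    rw [← EE_add, ← EE_mul_left, ← EE_sub]
    congr 1
    funext ω
    ring
  rw [hexp] at hXY
  have h2 : (√(EE p (fun ω => X ω ^ 2)) - √(EE p (fun ω => Y ω ^ 2))) ^ 2 ≤ 1 := by
    have e1 := Real.sq_sqrt hA
    have e2 := Real.sq_sqrt hB
    calc (√(EE p (fun ω => X ω ^ 2)) - √(EE p (fun ω => Y ω ^ 2))) ^ 2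
        = √(EE p (fun ω => X ω ^ 2)) ^ 2 + √(EE p (fun ω => Y ω ^ 2)) ^ 2 -
          2 * (√(EE p (fun ω => X ω ^ 2)) * √(EE p (fun ω => Y ω ^ 2))) := by ring
      _ ≤ 1 := by rw [e1, e2]; linarith
  exact abs_le_one_iff_mul_self_le_one.2 (by rw [← sq]; exact h2)

theorem tLIP : StLip := by
  intro p n h0 h1
  have hinj : Function.Injective (Sym2.map (Fin.castSucc : Fin n → Fin (n + 1))) :=
    Sym2.map.injective (Fin.castSucc_injective n)
  have hmarg : ∀ F : (Sym2 (Fin n) → Bool) → ℝ,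
      EE p (fun ω : Sym2 (Fin (n + 1)) → Bool => F (rs_LIP ω)) = EE p F :=
    fun F => EE_marg p _ hinj F
  have hfn : EE p (fun ω : Sym2 (Fin (n + 1)) → Bool => ch (gr (rs_LIP ω))) = fn p n :=
    hmarg (fun ω => ch (gr ω))
  have hvn : EE p (fun ω : Sym2 (Fin (n + 1)) → Bool => (ch (gr (rs_LIP ω)) - fn p n) ^ 2) =
      vn p n := hmarg (fun ω => (ch (gr ω) - fn p n) ^ 2)
  set D : (Sym2 (Fin (n + 1)) → Bool) → ℝ := fun ω => ch (gr ω) - ch (gr (rs_LIP ω)) with hD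
  have hD0 : ∀ ω, 0 ≤ D ω := fun ω => sub_nonneg.2 (low_LIP ω)
  have hD1 : ∀ ω, D ω ≤ 1 := fun ω => by
    have := upp_LIP ω
    show ch (gr ω) - ch (gr (rs_LIP ω)) ≤ 1
    linarith
  have hED : EE p D = fn p (n + 1) - fn p n := by
    rw [hD, EE_sub, hfn]
    rfl
  refine ⟨?_, ?_, ?_⟩
  · rw [← hED]
    exact EE_nonneg h0 h1 hD0
  · rw [← hED]
    refine (EE_mono h0 h1 hD1).trans (le_of_eq (EE_const p 1))
  · unfold sn
    rw [← hvn]
    refine mink_LIP h0 h1 (fun ω => ch (gr ω) - fn p (n + 1))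
      (fun ω => ch (gr (rs_LIP ω)) - fn p n) ?_
    have e : ∀ ω : Sym2 (Fin (n + 1)) → Bool,
        (ch (gr ω) - fn p (n + 1) - (ch (gr (rs_LIP ω)) - fn p n)) ^ 2 =
        D ω ^ 2 - (2 * (EE p D) * D ω - (EE p D) ^ 2) := by
      intro ω
      rw [hED]
      show _ = (ch (gr ω) - ch (gr (rs_LIP ω))) ^ 2 -
        (2 * (fn p (n + 1) - fn p n) * (ch (gr ω) - ch (gr (rs_LIP ω))) -
          (fn p (n + 1) - fn p n) ^ 2)
      ring
    simp only [e]
    rw [EE_sub, EE_sub, EE_mul_left, EE_const]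
    have h3 : EE p (fun ω => D ω ^ 2) ≤ 1 := by
      refine (EE_mono h0 h1 fun ω => ?_).trans (le_of_eq (EE_const p 1))
      exact pow_le_one₀ (hD0 ω) (hD1 ω)
    have h4 := sq_nonneg (EE p D)
    have h5 : 2 * EE p D * EE p D - EE p D ^ 2 = EE p D ^ 2 := by ring
    rw [h5]
    linarith

end Pool.Agent.Helper8.CN
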